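import Pool.Agent.Helper6.CX.Lay

/-! Packet CX-ALG (MP_75608d_al): extraction. -/

namespace Pool.Agent.Helper31.CX.ALG

open Equiv Pool.Agent.Helper6.CX
open Pool.Agent.Helper15.Pair (IsLen)

section
variable {n N : ℕ} (φ : Fin N ↪ Fin n)

theorem comm_layers {m : ℕ} {ρ : ℕ → Perm (Fin N)} {x : Perm (Fin n)}
    (h : ∀ j < m, Commute (lay φ j (ρ j)) x) : Commute (layers φ m ρ) x := by
  induction m with
  | zero => exact Commute.one_left x
  | succ m ih =>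
    rw [layers_succ]
    exact (ih fun j hj => h j (by omega)).mul_left (h m (by omega))

theorem layers_mul {m : ℕ} (hS : Sep φ m) (ρ ρ' : ℕ → Perm (Fin N)) :
    layers φ m (ρ * ρ') = layers φ m ρ * layers φ m ρ' := by
  induction m with
  | zero => rfl
  | succ m ih =>
    rw [layers_succ, layers_succ, layers_succ, ih (Sep.mono φ (Nat.le_succ m) hS),
      Pi.mul_apply, lay_mul]
    have h1 : Commute (layers φ m ρ') (lay φ m (ρ m)) :=
      comm_layers φ fun j hj => lay_commute φ hS (by omega) (by omega) (by omega) _ _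
    rw [mul_assoc, ← mul_assoc (layers φ m ρ'), h1.eq]
    simp only [mul_assoc]

theorem layers_one (m : ℕ) : layers φ m (1 : ℕ → Perm (Fin N)) = 1 := by
  induction m with
  | zero => rfl
  | succ m ih => rw [layers_succ, ih, Pi.one_apply, lay_one, mul_one]

/-- the layers as a homomorphism -/
noncomputable def lhom {m : ℕ} (hS : Sep φ m) : (ℕ → Perm (Fin N)) →* Perm (Fin n) where
  toFun := layers φ m
  map_one' := layers_one φ m
  map_mul' := layers_mul φ hS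

theorem lhom_apply {m : ℕ} (hS : Sep φ m) (ρ : ℕ → Perm (Fin N)) :
    lhom φ hS ρ = layers φ m ρ := rfl

theorem layers_congr {m : ℕ} {ρ ρ' : ℕ → Perm (Fin N)} (h : ∀ j < m, ρ j = ρ' j) :
    layers φ m ρ = layers φ m ρ' := by
  induction m with
  | zero => rfl
  | succ m ih => rw [layers_succ, layers_succ, ih fun j hj => h j (by omega), h m (by omega)]

theorem layers_single {m j0 : ℕ} (hj0 : j0 < m) {ρ : ℕ → Perm (Fin N)}
    (h : ∀ j, j ≠ j0 → ρ j = 1) : layers φ m ρ = lay φ j0 (ρ j0) := by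
  induction m with
  | zero => exact absurd hj0 (Nat.not_lt_zero _)
  | succ m ih =>
    rw [layers_succ]
    by_cases hm : j0 = m
    · subst hm
      have : layers φ j0 ρ = layers φ j0 1 := layers_congr φ fun j hj => h j (by omega)
      rw [this, layers_one, one_mul]
    · rw [h m (Ne.symm hm), lay_one, mul_one]
      exact ih (by omega)

/-- shift of the contents by one layer -/
def shift (ρ : ℕ → Perm (Fin N)) : ℕ → Perm (Fin N)
  | 0 => 1
  | (j + 1) => ρ j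

theorem conj_layers {m : ℕ} (ι : Perm (Fin n)) (hO : Off φ m ι) (ρ : ℕ → Perm (Fin N)) :
    (finRotate n * ι) * layers φ m ρ * (finRotate n * ι)⁻¹ = layers φ (m + 1) (shift ρ) := by
  induction m with
  | zero =>
    rw [layers_succ, layers_zero, layers_zero]
    change (finRotate n * ι) * 1 * (finRotate n * ι)⁻¹ = 1 * lay φ 0 1
    rw [lay_one, mul_one, mul_inv_cancel, one_mul]
  | succ m ih =>
    rw [layers_succ φ (m + 1), ← ih fun j hj => hO j (by omega), layers_succ φ m]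
    change _ = _ * lay φ (m + 1) (ρ m)
    rw [← lay_conj φ m (ρ m) ι (hO m (by omega))]
    group

end

theorem odd_pow {G : Type*} [Group G] {a : G} (h : a * a = 1) {E : ℕ} (hE : Odd E) :
    a ^ E = a := by
  obtain ⟨k, rfl⟩ := hE
  rw [pow_succ, pow_mul, pow_two, h, one_pow, one_mul]

theorem odd_pow' {G : Type*} [Group G] {a : G} (h : a * a = 1) {E : ℕ} (hE : Odd E) :
    a ^ (E + 1) = 1 := by
  rw [pow_succ, odd_pow h hE, h]

theorem comm_aux {G : Type*} [Group G] {J A B : G} (h1 : Commute J A) (h2 : Commute J B) :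
    (J * A) * (J * B) * (J * A)⁻¹ * (J * B)⁻¹ = A * B * A⁻¹ * B⁻¹ := by
  have e1 : J * A = A * J := h1.eq
  have e3 : J * B = B * J := h2.eq
  have e5 : J⁻¹ * A⁻¹ = A⁻¹ * J⁻¹ := (h1.inv_inv).eq
  calc (J * A) * (J * B) * (J * A)⁻¹ * (J * B)⁻¹
      = (A * J) * (B * J) * (J⁻¹ * A⁻¹) * (J⁻¹ * B⁻¹) := by
        rw [← e1, ← e3]
        have e6 : (J * A)⁻¹ = J⁻¹ * A⁻¹ := by rw [e1, mul_inv_rev]
        have e7 : (J * B)⁻¹ = J⁻¹ * B⁻¹ := by rw [e3, mul_inv_rev]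
        rw [e6, e7]
    _ = A * (J * B) * A⁻¹ * (J⁻¹ * B⁻¹) := by group
    _ = A * (B * J) * A⁻¹ * (J⁻¹ * B⁻¹) := by rw [e3]
    _ = A * B * (J * A⁻¹) * (J⁻¹ * B⁻¹) := by group
    _ = A * B * (A⁻¹ * J) * (J⁻¹ * B⁻¹) := by rw [h1.inv_right.eq]
    _ = A * B * A⁻¹ * B⁻¹ := by group

theorem thm : Pool.Agent.Helper6.CX.S_ALG := by
  intro n N m E φ ι₁ ι₂ z κ τ₁ τ₂ f hm hE hS hO1 hO2 h11 h22 h12 hz hκ ht1 ht2 hf L hL k
  have hκ1 : κ ^ (E + 1) = κ := by rw [pow_succ, hκ, one_mul]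
  have hf1 : ∀ j, f j ^ (E + 1) = f j := fun j => by rw [pow_succ, hf, one_mul]
  obtain ⟨X, hX⟩ : ∃ X, X = finRotate n * ι₁ := ⟨_, rfl⟩
  obtain ⟨u, hu⟩ : ∃ u, u = ι₁ * ι₂ * layers φ m (rho z κ τ₁ τ₂ f) := ⟨_, rfl⟩
  rw [← hX, ← hu]
  obtain ⟨I, hI⟩ : ∃ I, I = ι₁ * ι₂ := ⟨_, rfl⟩
  rw [← hI] at hu
  have hII : I * I = 1 := by
    rw [hI]
    calc ι₁ * ι₂ * (ι₁ * ι₂) = ι₁ * (ι₂ * ι₁) * ι₂ := by group
      _ = (ι₁ * ι₁) * (ι₂ * ι₂) := by rw [← h12]; group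
      _ = 1 := by rw [h11, h22, one_mul]
  have hIfix : ∀ j < m, ∀ t, I (((finRotate n) ^ j) (φ t)) = ((finRotate n) ^ j) (φ t) := by
    intro j hj t
    rw [hI, Perm.mul_apply, hO2 j hj, hO1 j hj]
  have hcI : ∀ ρ : ℕ → Perm (Fin N), Commute (layers φ m ρ) I := fun ρ =>
    comm_layers φ fun j hj => lay_commute_of_fix φ j _ I (hIfix j hj)
  have hupow : ∀ p : ℕ, u ^ p = I ^ p * layers φ m ((rho z κ τ₁ τ₂ f) ^ p) := by
    intro p
    rw [hu, (hcI _).symm.mul_pow, ← lhom_apply φ hS, ← lhom_apply φ hS, map_pow]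
  obtain ⟨Z, hZ⟩ : ∃ Z, Z = I * layers φ m (rho z 1 τ₁ τ₂ fun _ => 1) := ⟨_, rfl⟩
  obtain ⟨w, hw⟩ : ∃ w : ℕ → Perm (Fin N), w = rho 1 κ 1 1 f := ⟨_, rfl⟩
  obtain ⟨W, hW⟩ : ∃ W, W = layers φ m w := ⟨_, rfl⟩
  have huE : u ^ E = Z := by
    rw [hupow, hZ, odd_pow hII hE]
    congr 2
    funext j
    rw [Pi.pow_apply]
    rcases j with _ | _ | _ | _ | _ | _ | _ | _ | _ | j
    · exact one_pow E
    · exact odd_pow hz hE
    · exact hκ
    · change (κ⁻¹) ^ E = 1⁻¹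
      rw [inv_pow, hκ]
    · exact odd_pow hz hE
    · exact one_pow E
    · exact odd_pow ht1 hE
    · exact odd_pow ht2 hE
    · exact one_pow E
    · exact hf j
  have huE1 : u ^ (E + 1) = W := by
    rw [hupow, hW, odd_pow' hII hE, one_mul, hw]
    congr 1
    funext j
    rw [Pi.pow_apply]
    rcases j with _ | _ | _ | _ | _ | _ | _ | _ | _ | j
    · exact one_pow _
    · exact odd_pow' hz hE
    · exact hκ1
    · change (κ⁻¹) ^ (E + 1) = κ⁻¹
      rw [inv_pow, hκ1]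
    · exact odd_pow' hz hE
    · exact one_pow _
    · exact odd_pow' ht1 hE
    · exact odd_pow' ht2 hE
    · exact one_pow _
    · exact hf1 j
  have hLu := hL.nonneg u
  have hLX := hL.nonneg X
  have hEr : (0 : ℝ) ≤ E := Nat.cast_nonneg E
  have hLZ : L Z ≤ E * L u := by
    rw [← huE]
    exact hL.pow u E
  have hLW : L W ≤ (E + 1) * L u := by
    rw [← huE1]
    have := hL.pow u (E + 1)
    push_cast at this
    exact this
  have hLWk : L (W ^ k) ≤ |(k : ℝ)| * ((E + 1) * L u) :=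
    (hL.zpow W k).trans (mul_le_mul_of_nonneg_left hLW (abs_nonneg _))
  have hWk : W ^ k = layers φ m (w ^ k) := by
    rw [hW, ← lhom_apply φ hS, ← lhom_apply φ hS, map_zpow]
  have hWconj : ∀ ρ : ℕ → Perm (Fin N), W ^ k * layers φ m ρ * (W ^ k)⁻¹ =
      layers φ m (w ^ k * ρ * (w ^ k)⁻¹) := by
    intro ρ
    rw [hWk, ← lhom_apply φ hS, ← lhom_apply φ hS, ← lhom_apply φ hS, map_mul, map_mul, map_inv]
  -- the conjugate of `Z`
  obtain ⟨J, hJ⟩ : ∃ J, J = X * I * X⁻¹ := ⟨_, rfl⟩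
  obtain ⟨s, hs⟩ : ∃ s : ℕ → Perm (Fin N), s = shift (rho z 1 τ₁ τ₂ fun _ => 1) := ⟨_, rfl⟩
  have hZ' : X * Z * X⁻¹ = J * layers φ m s := by
    have h1 : X * layers φ m (rho z 1 τ₁ τ₂ fun _ => 1) * X⁻¹ = layers φ m s := by
      obtain ⟨m', rfl⟩ : ∃ m', m = m' + 1 := ⟨m - 1, by omega⟩
      have h2 : layers φ (m' + 1) (rho z 1 τ₁ τ₂ fun _ => 1) =
          layers φ m' (rho z 1 τ₁ τ₂ fun _ => 1) := by
        rw [layers_succ]
        have h3 : rho z (1 : Perm (Fin N)) τ₁ τ₂ (fun _ => 1) m' = 1 := by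
          obtain ⟨i, rfl⟩ : ∃ i, m' = i + 8 := ⟨m' - 8, by omega⟩
          rcases i with _ | i
          · rfl
          · rfl
        rw [h3, lay_one, mul_one]
      rw [h2, hs, hX]
      exact conj_layers φ ι₁ (fun j hj => hO1 j (by omega)) _
    rw [← h1, hJ, hZ]
    group
  have hJfix : ∀ j < m, 1 ≤ j → ∀ t, J (((finRotate n) ^ j) (φ t)) = ((finRotate n) ^ j) (φ t) := by
    intro j hj h1 t
    obtain ⟨i, rfl⟩ := Nat.exists_eq_add_of_le' h1
    have h2 : X (((finRotate n) ^ i) (φ t)) = ((finRotate n) ^ (i + 1)) (φ t) := by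
      rw [hX, Perm.mul_apply, hO1 i (by omega), pow_succ', Perm.mul_apply]
    have h3 : X⁻¹ (X (((finRotate n) ^ i) (φ t))) = ((finRotate n) ^ i) (φ t) := by
      rw [← Perm.mul_apply, inv_mul_cancel, Perm.one_apply]
    rw [← h2, hJ, Perm.mul_apply, Perm.mul_apply, h3, hIfix i (by omega)]
  have hcJ : ∀ ρ : ℕ → Perm (Fin N), ρ 0 = 1 → Commute J (layers φ m ρ) := by
    intro ρ h0
    refine (comm_layers φ fun j hj => ?_).symm
    rcases Nat.eq_zero_or_pos j with rfl | h1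
    · rw [h0, lay_one]
      exact Commute.one_left J
    · exact lay_commute_of_fix φ j _ J (hJfix j hj h1)
  have hw0 : (w ^ k) 0 = 1 := by
    rw [Pi.pow_apply, hw]
    exact one_zpow k
  have hwc : ∀ j, j ≠ 2 → s j ≠ 1 → (w ^ k) j = 1 := by
    intro j hj hj1
    rw [Pi.pow_apply, hw]
    rcases j with _ | _ | _ | _ | _ | _ | _ | _ | _ | _ | j
    · exact one_zpow k
    · exact one_zpow k
    · exact absurd rfl hj
    · exact absurd (by rw [hs]; rfl) hj1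
    · exact one_zpow k
    · exact one_zpow k
    · exact one_zpow k
    · exact one_zpow k
    · exact one_zpow k
    · exact absurd (by rw [hs]; rfl) hj1
    · exact absurd (by rw [hs]; rfl) hj1
  obtain ⟨s', hs'⟩ : ∃ s' : ℕ → Perm (Fin N), s' = w ^ k * s * (w ^ k)⁻¹ := ⟨_, rfl⟩
  have hZ'' : W ^ k * (X * Z * X⁻¹) * (W ^ k)⁻¹ = J * layers φ m s' := by
    rw [hZ', hs', ← hWconj]
    have h1 : Commute J (W ^ k) := by
      rw [hWk]
      exact hcJ _ hw0
    calc W ^ k * (J * layers φ m s) * (W ^ k)⁻¹ = (W ^ k * J) * layers φ m s * (W ^ k)⁻¹ := by group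
      _ = (J * W ^ k) * layers φ m s * (W ^ k)⁻¹ := by rw [h1.eq]
      _ = _ := by group
  have hs0 : s 0 = 1 := by rw [hs]; rfl
  have hs2 : s 2 = z := by rw [hs]; rfl
  have hw2 : (w ^ k) 2 = κ ^ k := by rw [Pi.pow_apply, hw]; rfl
  have hs'0 : s' 0 = 1 := by
    rw [hs', Pi.mul_apply, Pi.mul_apply, Pi.inv_apply, hw0, hs0]
    simp
  have hs'2 : s' 2 = κ ^ k * z * (κ ^ k)⁻¹ := by
    rw [hs', Pi.mul_apply, Pi.mul_apply, Pi.inv_apply, hw2, hs2]
  have hs'j : ∀ j, j ≠ 2 → s' j = s j := by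
    intro j hj
    rw [hs', Pi.mul_apply, Pi.mul_apply, Pi.inv_apply]
    by_cases h1 : s j = 1
    · rw [h1, mul_one, mul_inv_cancel]
    · rw [hwc j hj h1]
      simp
  have hcomm : (X * Z * X⁻¹) * (W ^ k * (X * Z * X⁻¹) * (W ^ k)⁻¹) * (X * Z * X⁻¹)⁻¹ *
      (W ^ k * (X * Z * X⁻¹) * (W ^ k)⁻¹)⁻¹ =
      lay φ 2 (z * (κ ^ k * z * (κ ^ k)⁻¹) * z⁻¹ * (κ ^ k * z * (κ ^ k)⁻¹)⁻¹) := by
    rw [hZ'', hZ', comm_aux (hcJ s hs0) (hcJ s' hs'0)]
    have h1 : layers φ m s * layers φ m s' * (layers φ m s)⁻¹ * (layers φ m s')⁻¹ =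
        layers φ m (s * s' * s⁻¹ * s'⁻¹) := by
      rw [← lhom_apply φ hS, ← lhom_apply φ hS, ← lhom_apply φ hS]
      simp only [map_mul, map_inv]
    rw [h1, layers_single φ (by omega : 2 < m)]
    · congr 1
      simp only [Pi.mul_apply, Pi.inv_apply, hs2, hs'2]
    · intro j hj
      simp only [Pi.mul_apply, Pi.inv_apply, hs'j j hj]
      group
  constructor
  · rw [← hcomm]
    have h1 := hL.conj X Z
    have h2 := hL.conj (W ^ k) (X * Z * X⁻¹)
    refine (hL.comm _ _).trans ?_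
    have hk : 0 ≤ |(k : ℝ)| := abs_nonneg _
    have h3 : 2 * L (X * Z * X⁻¹) + 2 * L (W ^ k * (X * Z * X⁻¹) * (W ^ k)⁻¹) ≤
        8 * L X + 4 * (E * L u) + 4 * (|(k : ℝ)| * ((E + 1) * L u)) := by linarith
    refine h3.trans ?_
    have h4 : 0 ≤ |(k : ℝ)| * E := mul_nonneg hk hEr
    have h5 : 0 ≤ |(k : ℝ)| * E * L u := mul_nonneg h4 hLu
    have h6 : 0 ≤ |(k : ℝ)| * E * L X := mul_nonneg h4 hLX
    have h7 : 0 ≤ |(k : ℝ)| * L u := mul_nonneg hk hLu
    have h8 : 0 ≤ |(k : ℝ)| * L X := mul_nonneg hk hLX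
    have h9 : 0 ≤ E * L u := mul_nonneg hEr hLu
    have h10 : 0 ≤ E * L X := mul_nonneg hEr hLX
    nlinarith
  · intro g
    have h1 : lay φ 2 g = layers φ m (Pi.mulSingle 2 g) := by
      rw [layers_single φ (by omega : 2 < m)]
      · simp
      · intro j hj
        exact Pi.mulSingle_eq_of_ne (M := fun _ => Perm (Fin N)) hj g
    have h2 : lay φ 2 (κ ^ k * g * (κ ^ k)⁻¹) = W ^ k * lay φ 2 g * (W ^ k)⁻¹ := by
      rw [h1, hWconj, layers_single φ (by omega : 2 < m)]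
      · congr 1
        rw [Pi.mul_apply, Pi.mul_apply, Pi.inv_apply, hw2]
        simp
      · intro j hj
        rw [Pi.mul_apply, Pi.mul_apply, Pi.inv_apply, Pi.mulSingle_eq_of_ne hj]
        simp
    rw [h2]
    have h3 := hL.conj (W ^ k) (lay φ 2 g)
    linarith

end Pool.Agent.Helper31.CX.ALG
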