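import Pool.Agent.Helper6.CX.Lay

/-! Packet CX-CJ (MP_75608d_al): the pair stays in the conjugacy classes. -/

namespace Pool.Agent.Helper31.CX.CJ

open Equiv Pool.Agent.Helper6.CX

theorem thm : Pool.Agent.Helper6.CX.S_CJ := by
  intro n N m φ ι ρ hm hS hO hprod
  obtain ⟨s, hs⟩ : ∃ s : ℕ → Perm (Fin N), s = fun j => ((List.range j).reverse.map ρ).prod :=
    ⟨_, rfl⟩
  have s0 : s 0 = 1 := by simp [hs]
  have ssucc : ∀ j, s (j + 1) = ρ j * s j := by
    intro j
    rw [hs]
    simp only
    rw [List.range_succ, List.reverse_append, List.map_append, List.prod_append]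
    simp
  have sm : s m = 1 := by rw [hs]; exact hprod
  obtain ⟨g, hg⟩ : ∃ g : Perm (Fin n), g = layers φ m s := ⟨_, rfl⟩
  have gfix : ∀ q : Fin n, (∀ j < m, 1 ≤ j → ∀ t, ((finRotate n) ^ j) (φ t) ≠ q) → g q = q := by
    intro q hq
    by_cases h0 : ∃ t, ((finRotate n) ^ 0) (φ t) = q
    · obtain ⟨t, rfl⟩ := h0
      rw [hg, layers_apply φ hS s (by omega : 0 < m), s0]
      rfl
    · push Not at h0
      rw [hg]
      refine layers_apply_of_notMem φ m s q fun j hj t => ?_
      rcases Nat.eq_zero_or_pos j with rfl | h1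
      · exact h0 t
      · exact hq j hj h1 t
  have step : ∀ (j : ℕ) (t : Fin N),
      finRotate n (((finRotate n) ^ j) (φ t)) = ((finRotate n) ^ (j + 1)) (φ t) := by
    intro j t
    rw [pow_succ', Perm.mul_apply]
  refine ⟨g, ?_⟩
  rw [mul_inv_eq_iff_eq_mul]
  refine Equiv.ext fun p => ?_
  simp only [Perm.mul_apply]
  by_cases hp : ∃ j < m, ∃ t, ((finRotate n) ^ j) (φ t) = p
  · obtain ⟨j, hj, t, rfl⟩ := hp
    have e1 : g (((finRotate n) ^ j) (φ t)) = ((finRotate n) ^ j) (φ (s j t)) := by
      rw [hg, layers_apply φ hS s hj]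
    have e2 : layers φ m ρ (((finRotate n) ^ j) (φ (s j t))) =
        ((finRotate n) ^ j) (φ (s (j + 1) t)) := by
      rw [layers_apply φ hS ρ hj, ssucc, Perm.mul_apply]
    rw [e1, e2, hO j hj, hO j hj, step, step]
    by_cases hjm : j + 1 < m
    · rw [hg, layers_apply φ hS s hjm]
    · have hjm' : j + 1 = m := by omega
      have h1 : s (j + 1) = 1 := by rw [hjm', sm]
      rw [h1, Perm.one_apply]
      refine gfix _ fun j' hj' hj1 t' ht' => ?_
      obtain ⟨i, rfl⟩ := Nat.exists_eq_add_of_le' hj1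
      rw [← step, ← step] at ht'
      have h2 := hS i (by omega) j hj t' t ((finRotate n).injective ht')
      omega
  · push Not at hp
    have e1 : g p = p := by
      refine gfix p fun j hj _ t => hp j hj t
    rw [e1, layers_apply_of_notMem φ m ρ p hp]
    refine gfix _ fun j hj hj1 t ht => ?_
    obtain ⟨i, rfl⟩ := Nat.exists_eq_add_of_le' hj1
    rw [← step] at ht
    have h2 := (finRotate n).injective ht
    rw [← hO i (by omega) t] at h2
    exact hp i (by omega) t (ι.injective h2)

end Pool.Agent.Helper31.CX.CJ
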