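import Pool.Agent.Helper6.CX.Goals

/-! Packet CX-EVC (MP_75608d_al): an even involution is a commutator of two involutions. -/

namespace Pool.Agent.Helper31.CX.EVC

open Equiv

/-- the cycle type of an involution -/
theorem cyc_inv {α : Type*} [Fintype α] [DecidableEq α] (g : Perm α) (h : g * g = 1) :
    g.cycleType = Multiset.replicate (Multiset.card g.cycleType) 2 := by
  have : Fact (Nat.Prime 2) := ⟨Nat.prime_two⟩
  rw [Multiset.eq_replicate]
  refine ⟨rfl, ?_⟩
  rw [← pow_two] at h
  exact Perm.pow_prime_eq_one_iff.1 h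

/-- number of moved points of an involution -/
theorem card_supp {α : Type*} [Fintype α] [DecidableEq α] (g : Perm α) (h : g * g = 1) :
    g.support.card = 2 * Multiset.card g.cycleType := by
  rw [← Perm.sum_cycleType]
  conv_lhs => rw [cyc_inv g h]
  rw [Multiset.sum_replicate, smul_eq_mul, mul_comm]

theorem even_card {α : Type*} [Fintype α] [DecidableEq α] (g : Perm α) (h : g * g = 1)
    (hs : Perm.sign g = 1) : Even (Multiset.card g.cycleType) := by
  rw [Perm.sign_of_cycleType, Perm.sum_cycleType, card_supp g h] at hs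
  by_contra ho
  rw [Nat.not_even_iff_odd] at ho
  have : Odd (2 * Multiset.card g.cycleType + Multiset.card g.cycleType) :=
    (even_two_mul _).add_odd ho
  rw [this.neg_one_pow] at hs
  exact absurd hs (by decide)

/-- the elements on `Fin h × Fin 4` -/
def T (h : ℕ) : Perm (Fin h × Fin 4) := Equiv.prodCongr (Equiv.refl _) (swap 0 1)

def T' (h : ℕ) : Perm (Fin h × Fin 4) := Equiv.prodCongr (Equiv.refl _) (swap 0 2 * swap 1 3)

theorem T_sq (h : ℕ) : T h * T h = 1 := by
  ext x
  · rfl
  · have : (swap (0 : Fin 4) 1 * swap 0 1) = 1 := by decide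
    have h2 := congrArg (fun e : Perm (Fin 4) => (e x.2).val) this
    exact h2

theorem T'_sq (h : ℕ) : T' h * T' h = 1 := by
  ext x
  · rfl
  · have : (swap (0 : Fin 4) 2 * swap 1 3) * (swap (0 : Fin 4) 2 * swap 1 3) = 1 := by decide
    have h2 := congrArg (fun e : Perm (Fin 4) => (e x.2).val) this
    exact h2

/-- the commutator on `Fin 4` -/
def cc : Perm (Fin 4) := swap (0 : Fin 4) 1 * (swap (0 : Fin 4) 2 * swap 1 3) * swap (0 : Fin 4) 1 *
  (swap (0 : Fin 4) 2 * swap 1 3)

/-- the commutator -/
def c (h : ℕ) : Perm (Fin h × Fin 4) := T h * T' h * (T h)⁻¹ * (T' h)⁻¹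

theorem inv_of_sq {G : Type*} [Group G] {a : G} (h : a * a = 1) : a⁻¹ = a :=
  inv_eq_of_mul_eq_one_left h

theorem c_apply (h : ℕ) (x : Fin h × Fin 4) : c h x = (x.1, cc x.2) := by
  rw [c, inv_of_sq (T_sq h), inv_of_sq (T'_sq h)]
  rfl

theorem c_sq (h : ℕ) : c h * c h = 1 := by
  refine Equiv.ext fun x => ?_
  rw [Perm.mul_apply, c_apply, c_apply]
  have : ∀ t : Fin 4, cc (cc t) = t := by decide
  simp only [this]
  rfl

theorem c_supp (h : ℕ) : (c h).support.card = h * 4 := by
  have : (c h).support = Finset.univ := by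
    rw [Finset.eq_univ_iff_forall]
    intro x
    rw [Perm.mem_support, c_apply]
    intro hx
    have h2 : ∀ t : Fin 4, cc t ≠ t := by decide
    exact h2 _ (congrArg Prod.snd hx)
  rw [this, Finset.card_univ, Fintype.card_prod, Fintype.card_fin, Fintype.card_fin]

theorem thm : Pool.Agent.Helper6.CX.S_EVC := by
  intro N g hg hs
  obtain ⟨h, hh⟩ := even_card g hg hs
  have hcard := card_supp g hg
  have hle : h * 4 ≤ N := by
    have h1 : g.support.card ≤ N := by
      have := Finset.card_le_univ g.support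
      rwa [Fintype.card_fin] at this
    omega
  let φ : Fin h × Fin 4 ↪ Fin N :=
    (finProdFinEquiv.toEmbedding).trans (Fin.castLEEmb hle)
  let V := Perm.viaEmbeddingHom φ
  have hd2 : V (c h) * V (c h) = 1 := by rw [← map_mul, c_sq, map_one]
  have hds : (V (c h)).support.card = h * 4 := by
    have h1 : (V (c h)).support.card = (c h).support.card := by
      change ((c h).viaEmbedding φ).support.card = _
      rw [Perm.viaEmbedding]
      convert Perm.card_support_extend_domain (ofInjective φ.1 φ.2)
    rw [h1, c_supp]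
  have hct : (V (c h)).cycleType = g.cycleType := by
    rw [cyc_inv _ hd2, cyc_inv g hg]
    congr 1
    have h1 := card_supp _ hd2
    omega
  obtain ⟨w, hw⟩ := isConj_iff.1 ((Perm.isConj_iff_cycleType_eq (σ := V (c h)) (τ := g)).2 hct)
  refine ⟨w * V (T h) * w⁻¹, w * V (T' h) * w⁻¹, ?_, ?_, ?_⟩
  · have : w * V (T h) * w⁻¹ * (w * V (T h) * w⁻¹) = w * V (T h * T h) * w⁻¹ := by
      rw [map_mul]
      group
    rw [this, T_sq, map_one]
    group
  · have : w * V (T' h) * w⁻¹ * (w * V (T' h) * w⁻¹) = w * V (T' h * T' h) * w⁻¹ := by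
      rw [map_mul]
      group
    rw [this, T'_sq, map_one]
    group
  · rw [← hw, c, map_mul, map_mul, map_mul, map_inv, map_inv]
    group

end Pool.Agent.Helper31.CX.EVC
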